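import Pool.Agent.Run7.h450.CS.Iface

/-!
# Piece LIM of project CL: continuity of the flux at `s = 0`
-/

set_option autoImplicit false
open Filter Topology Matrix MeasureTheory

namespace Run7.h398.CL

open Run7.h450.CL

section

variable {K : Type} [Fintype K] [DecidableEq K]

theorem sl_sq {m : ℕ} (γ : Fin m → Matrix K K ℂ) (h : Cl γ) (x : Fin m → ℝ) :
    sl γ x * sl γ x = (((∑ j, x j ^ 2 : ℝ)) : ℂ) • (1 : Matrix K K ℂ) := by
  have h1 : sl γ x * sl γ x = ∑ j, ∑ k, ((x j : ℂ) * (x k : ℂ)) • (γ j * γ k) := by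
    unfold sl
    rw [Finset.sum_mul_sum]
    refine Finset.sum_congr rfl fun j _ => Finset.sum_congr rfl fun k _ => ?_
    rw [smul_mul_smul_comm]
  have h2 : sl γ x * sl γ x = ∑ j, ∑ k, ((x j : ℂ) * (x k : ℂ)) • (γ k * γ j) := by
    rw [h1, Finset.sum_comm]
    refine Finset.sum_congr rfl fun j _ => Finset.sum_congr rfl fun k _ => ?_
    rw [mul_comm (x k : ℂ)]
  have h3 : (2 : ℂ) • (sl γ x * sl γ x) =
      (2 : ℂ) • ((((∑ j, x j ^ 2 : ℝ)) : ℂ) • (1 : Matrix K K ℂ)) := by
    calc (2 : ℂ) • (sl γ x * sl γ x) = sl γ x * sl γ x + sl γ x * sl γ x := two_smul _ _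
      _ = (∑ j, ∑ k, ((x j : ℂ) * (x k : ℂ)) • (γ j * γ k)) +
          ∑ j, ∑ k, ((x j : ℂ) * (x k : ℂ)) • (γ k * γ j) := congrArg₂ (· + ·) h1 h2
      _ = ∑ j, ∑ k, ((x j : ℂ) * (x k : ℂ)) • (γ j * γ k + γ k * γ j) := by
          simp only [← Finset.sum_add_distrib, ← smul_add]
      _ = ∑ j, ((x j : ℂ) * (x j : ℂ)) • ((2 : ℂ) • (1 : Matrix K K ℂ)) := by
          refine Finset.sum_congr rfl fun j _ => ?_
          rw [Finset.sum_eq_single j]
          · rw [h.sq, two_smul]
          · intro k _ hkj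
            rw [h.anti j k (Ne.symm hkj), neg_add_cancel, smul_zero]
          · simp
      _ = (2 : ℂ) • ((((∑ j, x j ^ 2 : ℝ)) : ℂ) • (1 : Matrix K K ℂ)) := by
          rw [← Finset.sum_smul, smul_comm]
          congr 2
          push_cast
          exact Finset.sum_congr rfl fun j _ => by ring
  exact smul_right_injective _ (two_ne_zero : (2 : ℂ) ≠ 0) h3

theorem det_sl_ne {m : ℕ} (γ : Fin m → Matrix K K ℂ) (h : Cl γ) (x : Fin m → ℝ) (i : Fin m)
    (hx : x i ≠ 0) : (sl γ x).det ≠ 0 := by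
  intro h0
  have h1 := congrArg Matrix.det (sl_sq γ h x)
  rw [Matrix.det_mul, h0, zero_mul, Matrix.det_smul, Matrix.det_one, mul_one] at h1
  have h2 : 0 < ∑ j, x j ^ 2 :=
    Finset.sum_pos' (fun j _ => sq_nonneg _) ⟨i, Finset.mem_univ _, by positivity⟩
  have h3 : (((∑ j, x j ^ 2 : ℝ)) : ℂ) ≠ 0 := by exact_mod_cast h2.ne'
  exact pow_ne_zero _ h3 h1.symm

omit [Fintype K] [DecidableEq K] in
theorem continuous_sl {m : ℕ} (γ : Fin m → Matrix K K ℂ) {X : Type} [TopologicalSpace X]
    {f : X → Fin m → ℝ} (hf : Continuous f) : Continuous fun q => sl γ (f q) := by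
  unfold sl
  refine continuous_finsetSum _ fun j _ => ?_
  exact (Complex.continuous_ofReal.comp ((continuous_apply j).comp hf)).smul continuous_const

theorem continuous_inv_mat {X : Type} [TopologicalSpace X] {M : X → Matrix K K ℂ}
    (hM : Continuous M) (hd : ∀ q, (M q).det ≠ 0) : Continuous fun q => (M q)⁻¹ := by
  have h1 : (fun q => (M q)⁻¹) = fun q => ((M q).det)⁻¹ • (M q).adjugate := by
    funext q
    rw [Matrix.inv_def, Ring.inverse_eq_inv']
  rw [h1]
  exact (hM.matrix_det.inv₀ hd).smul hM.matrix_adjugate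

theorem continuous_wd {X : Type} [TopologicalSpace X] {p : ℕ} {u : X → Fin p → Matrix K K ℂ}
    (hu : ∀ k, Continuous fun q => u q k) : Continuous fun q => wd (u q) := by
  unfold wd
  simp only [List.ofFn_eq_map]
  exact continuous_list_prod _ fun k _ => hu k

theorem continuous_VF {p : ℕ} (γ : Fin (p + 1) → Matrix K K ℂ) {X : Type} [TopologicalSpace X]
    {f : X → Fin (p + 1) → ℝ} (hf : Continuous f) {D : X → Matrix K K ℂ} (hD : Continuous D)
    (hd : ∀ q, (D q - sl γ (f q)).det ≠ 0) (i : Fin (p + 1)) :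
    Continuous fun q => VF (D q) γ (f q) i := by
  unfold VF
  refine continuous_finsetSum _ fun τ _ => ?_
  by_cases hτ : τ 0 = i
  · simp only [hτ, if_true]
    refine continuous_const.mul (Continuous.matrix_trace (continuous_const.mul ?_))
    refine continuous_wd fun k => ?_
    exact (continuous_inv_mat (hD.sub (continuous_sl γ hf)) hd).mul continuous_const
  · simp only [hτ, if_false]
    exact continuous_const

end

theorem t_LIM : S_LIM := by
  intro K _ _ p γ D0 _ hγ hdet
  -- continuity of the integrals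
  have key : ∀ (i : Fin (p + 1)) (ε : ℝ), ε ≠ 0 → Continuous fun s : NNReal =>
      ∫ y in Set.Icc (fun _ => -1 : Fin p → ℝ) (fun _ => 1),
        VF (((s : ℝ) : ℂ) • D0) γ (i.insertNth ε y) i := by
    intro i ε hε
    have hc : Continuous (Function.uncurry fun (s : NNReal) (y : Fin p → ℝ) =>
        VF (((s : ℝ) : ℂ) • D0) γ (i.insertNth ε y : Fin (p + 1) → ℝ) i) := by
      have hf : Continuous fun q : NNReal × (Fin p → ℝ) =>
          (i.insertNth ε q.2 : Fin (p + 1) → ℝ) :=
        continuous_const.finInsertNth i continuous_snd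
      have hD : Continuous fun q : NNReal × (Fin p → ℝ) => ((((q.1 : NNReal) : ℝ)) : ℂ) • D0 :=
        (Complex.continuous_ofReal.comp (NNReal.continuous_coe.comp continuous_fst)).smul
          continuous_const
      refine continuous_VF γ hf hD ?_ i
      rintro ⟨s, y⟩
      rcases (show (0 : NNReal) ≤ s from bot_le).eq_or_lt with h0 | h0
      · rw [← h0]
        simp only [NNReal.coe_zero, Complex.ofReal_zero, zero_smul, zero_sub]
        rw [Matrix.det_neg]
        refine mul_ne_zero (pow_ne_zero _ (by norm_num)) (det_sl_ne γ hγ _ i ?_)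
        rw [Fin.insertNth_apply_same]
        exact hε
      · exact hdet s (by exact_mod_cast h0) _
    exact continuous_parametric_integral_of_continuous hc isCompact_Icc
  have hF : Continuous fun s : NNReal => flux (((s : ℝ) : ℂ) • D0) γ := by
    unfold flux
    refine continuous_finsetSum _ fun i _ => ?_
    exact (key i 1 one_ne_zero).sub (key i (-1) (by norm_num))
  have h1 : Tendsto (fun s : ℝ => flux (((s.toNNReal : ℝ) : ℂ) • D0) γ) (𝓝[>] 0)
      (𝓝 (flux (0 : Matrix K K ℂ) γ)) := by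
    have h2 : Continuous fun s : ℝ => flux (((s.toNNReal : ℝ) : ℂ) • D0) γ :=
      hF.comp continuous_real_toNNReal
    have h3 := (h2.tendsto 0).mono_left (nhdsWithin_le_nhds (s := Set.Ioi (0 : ℝ)))
    simpa using h3
  refine h1.congr' ?_
  filter_upwards [self_mem_nhdsWithin] with s hs
  have hs' : 0 < s := hs
  rw [Real.coe_toNNReal s hs'.le]

end Run7.h398.CL
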